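import Pool.Agent.H30.DiaB

set_option autoImplicit false

namespace Pool.Agent.Results.MP_ffd784_gt.Diamond

open Pool.Agent.H30.Dia

/-- Under the diamond principle there is a Tychonoff L-space with a D-separable square. -/
theorem result (h : Diamond) : ∃ (X : Type) (_ : TopologicalSpace X),
    T35Space X ∧ HereditarilyLindelofSpace X ∧ ¬ TopologicalSpace.SeparableSpace X ∧
    ∀ D : ℕ → Set (X × X), (∀ n, Dense (D n)) →
      ∃ F : ℕ → Set (X × X), (∀ n, F n ⊆ D n ∧ DiscreteTopology (F n)) ∧ Dense (⋃ n, F n) := by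
  obtain ⟨t, ht⟩ := exists_tr h True
  exact ⟨Sp t, inferInstance, inferInstance, ht.hl, not_sep t, ht.dsep⟩

end Pool.Agent.Results.MP_ffd784_gt.Diamond
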